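import Pool.Agent.Helper26.RP.Goals

noncomputable section

namespace RP.PkOP1

open MeasureTheory Filter Topology RP

/-- the point `s` sees both endpoints of the edge `i` -/
def Sees {a : ℕ} (i : Fin a) (s : E) (x : Fin a → E) : Prop :=
  ∀ j, NX s (x i) (x j) (x (finRotate a j)) ∧ NX s (x (finRotate a i)) (x j) (x (finRotate a j))

theorem rot_comm {a : ℕ} (k : ℕ) (j : Fin a) :
    ((finRotate a) ^ k) (finRotate a j) = finRotate a (((finRotate a) ^ k) j) := by
  rw [← Equiv.Perm.mul_apply, ← Equiv.Perm.mul_apply, ← pow_succ, ← pow_succ']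

theorem sees_comp {a : ℕ} (k : ℕ) (i : Fin a) (s : E) (x : Fin a → E) :
    Sees i s (x ∘ ⇑((finRotate a : Equiv.Perm (Fin a)) ^ k)) ↔ Sees (((finRotate a) ^ k) i) s x := by
  unfold Sees
  simp only [Function.comp, rot_comm]
  constructor
  · intro h j
    obtain ⟨j', rfl⟩ := ((finRotate a) ^ k).surjective j
    exact h j'
  · intro h j
    exact h _

theorem gp_comp {ι : Type*} (x : ι → E) (e : Equiv.Perm ι) : GP (x ∘ e) ↔ GP x := by
  constructor
  · intro h i j k hij hjk hik
    have := h (e.symm i) (e.symm j) (e.symm k) (by simpa using hij) (by simpa using hjk)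
      (by simpa using hik)
    simpa using this
  · intro h i j k hij hjk hik
    exact h _ _ _ (by simpa using hij) (by simpa using hjk) (by simpa using hik)

theorem cl_comp {a : ℕ} (k : ℕ) (x : Fin a → E) :
    Cl (finRotate a) (x ∘ ⇑((finRotate a : Equiv.Perm (Fin a)) ^ k)) ↔ Cl (finRotate a) x := by
  unfold Cl
  rw [gp_comp]
  simp only [Function.comp, rot_comm]
  refine and_congr_right fun _ => ?_
  constructor
  · intro h i j
    obtain ⟨i', rfl⟩ := ((finRotate a) ^ k).surjective i
    obtain ⟨j', rfl⟩ := ((finRotate a) ^ k).surjective j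
    exact h i' j'
  · intro h i j
    exact h _ _

theorem rot_pow_val {a : ℕ} (k : ℕ) (i : Fin (a + 1)) :
    (((finRotate (a + 1)) ^ k) i) = i + (Fin.ofNat (a + 1) k) := by
  induction k with
  | zero => simp
  | succ k ih =>
    rw [pow_succ', Equiv.Perm.mul_apply, ih, finRotate_succ_apply]
    ext
    simp [Fin.val_add, add_assoc, Nat.add_mod, Fin.val_one']

theorem exists_rot {a : ℕ} (i j : Fin a) : ∃ k : ℕ, ((finRotate a) ^ k) i = j := by
  cases a with
  | zero => exact i.elim0
  | succ a =>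
    refine ⟨(j - i).val, ?_⟩
    rw [rot_pow_val]
    simp

theorem vis_iff {a : ℕ} (ha : 3 ≤ a) (s : E) (x : Fin a → E) :
    Vis s x ↔ Sees (⟨a - 1, by omega⟩ : Fin a) s x := by
  obtain ⟨b, rfl⟩ : ∃ b, a = b + 1 := ⟨a - 1, by omega⟩
  have h0 : finRotate (b + 1) (⟨b + 1 - 1, by omega⟩ : Fin (b + 1)) = 0 := by
    have : (⟨b + 1 - 1, by omega⟩ : Fin (b + 1)) = Fin.last b := by ext; simp
    rw [this, finRotate_last]
  unfold Vis Sees
  rw [h0]
  constructor
  · intro h j
    exact ⟨h _ j (Or.inr (by simp)), h 0 j (Or.inl rfl)⟩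
  · intro h i j hi
    rcases hi with hi | hi
    · have : i = 0 := by ext; simpa using hi
      rw [this]
      exact (h j).2
    · have : i = (⟨b + 1 - 1, by omega⟩ : Fin (b + 1)) := by ext; simp; omega
      rw [this]
      exact (h j).1

/-- the rotation preserves the volume -/
theorem vol_rot {a : ℕ} (e : Equiv.Perm (Fin a)) (A : Set (Fin a → E)) :
    volume {x : Fin a → E | x ∘ e ∈ A} = volume A := by
  have h := volume_measurePreserving_piCongrLeft (fun _ : Fin a => E) e.symm
  have h1 := h.measure_preimage_equiv A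
  rw [← h1]
  congr 1
  ext x
  simp only [Set.mem_setOf_eq, Set.mem_preimage]
  have : (MeasurableEquiv.piCongrLeft (fun _ : Fin a => E) e.symm) x = x ∘ e := by
    funext i
    have := MeasurableEquiv.piCongrLeft_apply_apply (β := fun _ : Fin a => E) e.symm x (e i)
    simpa using this
  rw [this]

theorem two_mul_le (p q : ENNReal) (hp : p ≠ ⊤) (hq : q ≠ ⊤) : 2 * q * p ≤ p ^ 2 + q ^ 2 := by
  lift p to NNReal using hp
  lift q to NNReal using hq
  norm_cast
  rw [← NNReal.coe_le_coe]
  push_cast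
  nlinarith [sq_nonneg ((p:ℝ) - q)]

theorem op1 : G_VIS → G_MEA → G_NUL → G_OP1 := by
  intro vis mea nul W U a ha hW hU hWt hUt hWU
  set P : Set (Fin a → E) := {x | (∀ i, x i ∈ U) ∧ Cl (finRotate a) x} with hP
  have hPm : MeasurableSet P := mea.2.2.2.1 U a hU
  have hvc : volume P = vc a U := rfl
  have hvt : vc a U ≠ ⊤ := by
    have h1 : volume P ≤ volume (Set.pi Set.univ fun _ : Fin a => U) :=
      measure_mono (fun x hx => by
        rw [Set.mem_univ_pi]
        exact hx.1)
    rw [volume_pi_pi] at h1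
    refine ne_top_of_le_ne_top ?_ h1
    exact ENNReal.prod_ne_top fun _ _ => hUt
  -- the set A
  set A : Set (E × (Fin a → E)) := {z | z.1 ∈ W ∧ z.2 ∈ P ∧ Vis z.1 z.2} with hA
  have hVism : MeasurableSet {z : E × (Fin a → E) | Vis z.1 z.2} := by
    have : {z : E × (Fin a → E) | Vis z.1 z.2} = ⋂ i : Fin a, ⋂ j : Fin a,
        {z | (i.val = 0 ∨ i.val + 1 = a) → NX z.1 (z.2 i) (z.2 j) (z.2 (finRotate a j))} := by
      ext z
      simp [Vis]
    rw [this]
    refine MeasurableSet.iInter fun i => MeasurableSet.iInter fun j => ?_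
    by_cases h : (i.val = 0 ∨ i.val + 1 = a)
    · simp only [h, forall_true_left]
      exact mea.1 _ _ _ _ _ measurable_fst ((measurable_pi_apply i).comp measurable_snd)
        ((measurable_pi_apply j).comp measurable_snd)
        ((measurable_pi_apply _).comp measurable_snd)
    · simp [h]
  have hAm : MeasurableSet A := by
    refine (measurable_fst hW).inter ((measurable_snd hPm).inter hVism)
  -- lower bound for almost all s
  have hlow : ∀ᵐ s : E, s ∈ W → vc a U ≤ (a : ENNReal) * volume {x : Fin a → E | (s, x) ∈ A} := by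
    have h1 : ∀ᵐ y : Fin (a + 1) → E, GP y := nul.2.1 (Fin (a + 1))
    have h2 := volume_preserving_piFinSuccAbove (fun _ : Fin (a + 1) => E) 0
    have h3 : ∀ᵐ z : E × (Fin a → E), GP (Fin.cons z.1 z.2 : Fin (a + 1) → E) := by
      have h4 := (h2.symm).quasiMeasurePreserving.ae h1
      filter_upwards [h4] with z hz
      have : ((MeasurableEquiv.piFinSuccAbove (fun _ : Fin (a + 1) => E) 0).symm z) =
          (Fin.cons z.1 z.2 : Fin (a + 1) → E) := by
        funext i
        refine Fin.cases ?_ (fun j => ?_) i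
        · simp [MeasurableEquiv.piFinSuccAbove]
        · simp [MeasurableEquiv.piFinSuccAbove]
      rw [this] at hz
      exact hz
    have h5 := Measure.ae_ae_of_ae_prod h3
    filter_upwards [h5] with s hs hsW
    -- cover
    have hcov : volume P ≤ ∑ i : Fin a, volume {x : Fin a → E | x ∈ P ∧ Sees i s x} := by
      refine le_trans (measure_mono_ae (t := ⋃ i : Fin a, {x | x ∈ P ∧ Sees i s x}) ?_)
        (measure_iUnion_fintype_le _ _)
      filter_upwards [hs] with x hx hxP
      have hxP' : x ∈ P := hxP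
      obtain ⟨i, hi⟩ := vis a s x ha (fun i => hWU s hsW _ (hxP'.1 i)) hx hxP'.2
      exact Set.mem_iUnion.2 ⟨i, hxP', hi⟩
    have heq : ∀ i : Fin a, volume {x : Fin a → E | x ∈ P ∧ Sees i s x} =
        volume {x : Fin a → E | (s, x) ∈ A} := by
      intro i
      obtain ⟨k, hk⟩ := exists_rot (⟨a - 1, by omega⟩ : Fin a) i
      have h6 := vol_rot ((finRotate a) ^ k) {x : Fin a → E | (s, x) ∈ A}
      rw [← h6]
      congr 1
      ext x
      simp only [Set.mem_setOf_eq, hA, hP]
      rw [vis_iff ha, sees_comp, hk, cl_comp]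
      constructor
      · rintro ⟨⟨h7, h8⟩, h9⟩
        exact ⟨hsW, ⟨fun j => h7 _, h8⟩, h9⟩
      · rintro ⟨-, ⟨h7, h8⟩, h9⟩
        refine ⟨⟨fun j => ?_, h8⟩, h9⟩
        obtain ⟨j', rfl⟩ := ((finRotate a) ^ k).surjective j
        exact h7 j'
    rw [← hvc]
    refine hcov.trans ?_
    rw [Finset.sum_congr rfl fun i _ => heq i]
    simp
  -- Tonelli
  set f : (Fin a → E) → ENNReal := fun x => volume {s : E | (s, x) ∈ A} with hf
  have hfm : Measurable f := measurable_measure_prodMk_right hAm
  have hfW : ∀ x, f x ≤ volume W := fun x => measure_mono fun s hs => hs.1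
  have hf0 : ∀ x, x ∉ P → f x = 0 := by
    intro x hx
    have : {s : E | (s, x) ∈ A} = ∅ := by
      ext s
      simp only [Set.mem_setOf_eq, Set.mem_empty_iff_false, iff_false]
      intro h
      exact hx h.2.1
    simp only [hf, this, measure_empty]
  have hT1 : volume W * vc a U ≤ (a : ENNReal) * ∫⁻ x in P, f x := by
    have e1 : volume A = ∫⁻ s, volume {x : Fin a → E | (s, x) ∈ A} := by
      rw [Measure.volume_eq_prod, Measure.prod_apply hAm]
      rfl
    have e2 : volume A = ∫⁻ x, f x := by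
      rw [Measure.volume_eq_prod, Measure.prod_apply_symm hAm]
      rfl
    have e3 : ∫⁻ x, f x = ∫⁻ x in P, f x := by
      rw [← lintegral_indicator hPm]
      refine lintegral_congr fun x => ?_
      by_cases hx : x ∈ P
      · rw [Set.indicator_of_mem hx]
      · rw [Set.indicator_of_notMem hx, hf0 x hx]
    rw [← e3, ← e2, e1]
    calc volume W * vc a U = ∫⁻ _s in W, vc a U := by
          rw [setLIntegral_const, mul_comm]
      _ ≤ ∫⁻ s in W, (a : ENNReal) * volume {x : Fin a → E | (s, x) ∈ A} := by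
          refine lintegral_mono_ae ?_
          rw [ae_restrict_iff' hW]
          exact hlow
      _ ≤ ∫⁻ s, (a : ENNReal) * volume {x : Fin a → E | (s, x) ∈ A} := setLIntegral_le_lintegral _ _
      _ = (a : ENNReal) * ∫⁻ s, volume {x : Fin a → E | (s, x) ∈ A} := by
          rw [lintegral_const_mul]
          exact measurable_measure_prodMk_left hAm
  have hT2 : volume (D2 W U a) = ∫⁻ x in P, f x ^ 2 := by
    have hDm : MeasurableSet (D2 W U a) := (mea.2.2.2.2 W U a hW hU).2
    have h1 := (volume_preserving_prodAssoc (α₁ := E) (β₁ := E) (γ₁ := Fin a → E))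
    have h2 := h1.measure_preimage hDm.nullMeasurableSet
    rw [← h2]
    have hm : MeasurableSet ((MeasurableEquiv.prodAssoc : (E × E) × (Fin a → E) ≃ᵐ _) ⁻¹'
        D2 W U a) := h1.measurable hDm
    rw [Measure.volume_eq_prod, Measure.prod_apply_symm hm, ← lintegral_indicator hPm]
    refine lintegral_congr fun x => ?_
    by_cases hx : x ∈ P
    · rw [Set.indicator_of_mem hx]
      have : ((fun y : E × E => (y, x)) ⁻¹' ((MeasurableEquiv.prodAssoc :
          (E × E) × (Fin a → E) ≃ᵐ _) ⁻¹' D2 W U a)) =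
          {s : E | (s, x) ∈ A} ×ˢ {s : E | (s, x) ∈ A} := by
        ext ⟨s, s'⟩
        simp only [Set.mem_preimage, MeasurableEquiv.prodAssoc, MeasurableEquiv.coe_mk,
          Equiv.prodAssoc_apply, D2, Set.mem_setOf_eq, Set.mem_prod, hA]
        have hx' := hx
        simp only [hP, Set.mem_setOf_eq] at hx'
        constructor
        · rintro ⟨h1, h2, -, -, h5, h6⟩
          exact ⟨⟨h1, hx, h5⟩, ⟨h2, hx, h6⟩⟩
        · rintro ⟨⟨h1, -, h5⟩, ⟨h2, -, h6⟩⟩
          exact ⟨h1, h2, hx'.1, hx'.2, h5, h6⟩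
      rw [this, Measure.volume_eq_prod, Measure.prod_prod, pow_two]
    · rw [Set.indicator_of_notMem hx]
      have : ((fun y : E × E => (y, x)) ⁻¹' ((MeasurableEquiv.prodAssoc :
          (E × E) × (Fin a → E) ≃ᵐ _) ⁻¹' D2 W U a)) = ∅ := by
        ext ⟨s, s'⟩
        simp only [Set.mem_preimage, MeasurableEquiv.prodAssoc, MeasurableEquiv.coe_mk,
          Equiv.prodAssoc_apply, D2, Set.mem_setOf_eq, Set.mem_empty_iff_false, iff_false]
        rintro ⟨-, -, h3, h4, -⟩
        exact hx ⟨h3, h4⟩
      rw [this, measure_empty]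
  -- conclusion
  have hsq : 2 * volume W * ((a : ENNReal) * ∫⁻ x in P, f x) ≤
      (a : ENNReal) ^ 2 * (∫⁻ x in P, f x ^ 2) + volume W ^ 2 * vc a U := by
    have e1 : 2 * volume W * ((a : ENNReal) * ∫⁻ x in P, f x) =
        ∫⁻ x in P, 2 * volume W * ((a : ENNReal) * f x) := by
      rw [lintegral_const_mul _ (hfm.const_mul _), lintegral_const_mul _ hfm]
    have e2 : (a : ENNReal) ^ 2 * (∫⁻ x in P, f x ^ 2) + volume W ^ 2 * vc a U =
        ∫⁻ x in P, ((a : ENNReal) ^ 2 * f x ^ 2 + volume W ^ 2) := by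
      rw [lintegral_add_left ((hfm.pow_const 2).const_mul _),
        lintegral_const_mul _ (hfm.pow_const 2), setLIntegral_const, hvc]
    rw [e1, e2]
    refine lintegral_mono fun x => ?_
    have := two_mul_le ((a : ENNReal) * f x) (volume W)
      (ENNReal.mul_ne_top (ENNReal.natCast_ne_top a) (ne_top_of_le_ne_top hWt (hfW x))) hWt
    rwa [mul_pow] at this
  have hfin : volume W ^ 2 * vc a U ≠ ⊤ := ENNReal.mul_ne_top (ENNReal.pow_ne_top hWt) hvt
  have h2 : volume W ^ 2 * vc a U + volume W ^ 2 * vc a U ≤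
      (a : ENNReal) ^ 2 * (∫⁻ x in P, f x ^ 2) + volume W ^ 2 * vc a U := by
    refine le_trans ?_ hsq
    calc volume W ^ 2 * vc a U + volume W ^ 2 * vc a U
        = 2 * volume W * (volume W * vc a U) := by ring
      _ ≤ 2 * volume W * ((a : ENNReal) * ∫⁻ x in P, f x) := by gcongr
  rw [hT2]
  exact (ENNReal.add_le_add_iff_right hfin).1 h2

end RP.PkOP1
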